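import Pool.Agent.KS6_11.HsLpp.Unif

/-!
# The statement for all pairs of lattice points of a horizontal strip
-/

set_option autoImplicit false
open MeasureTheory ProbabilityTheory Filter Topology

namespace Pool.Agent.KS6_11.HsLpp

open Pool.Agent.H374

/-- All pairs `a ≤ b` of the strip. -/
theorem strip (κ : ℝ) (T₀ : ℕ) (ε : ℝ) (hε : 0 < ε) (δ : ℝ) (hδ : 0 < δ)
    (Ω : Type) [MeasurableSpace Ω] (P : Measure Ω) (E : ℤ × ℤ → Ω → ℝ) (hE : Env P E) :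
    ∃ n1 : ℕ, ∀ n : ℕ, n1 ≤ n → ∀ α : ℝ, |α - 1 / 2| ≤ |κ| * (n : ℝ) ^ (-(1 : ℝ) / 3) →
      P {ω | ∃ a b : ℤ × ℤ, a ≤ b ∧ a.2 ≤ a.1 ∧ -((T₀ : ℤ) * n) + 1 ≤ a.2 ∧ b.2 ≤ (T₀ : ℤ) * n ∧
        ε * (n : ℝ) ^ ((1 : ℝ) / 3) < |L Hs (wgt (cH α) E ω) a b
          - L Hs (wgt (cH α) (resamp E) ω) a b|} ≤ ENNReal.ofReal δ := by
  have hprob := hE.prob
  obtain ⟨n1, H⟩ := all_pairs κ (2 * T₀ + 1) (by omega) ε hε δ hδ Ω P E hE
  refine ⟨max n1 1, fun n hn α hα => ?_⟩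
  have hn1 : 1 ≤ n := (le_max_right _ _).trans hn
  have key := H n ((le_max_left _ _).trans hn) α hα
  have hnR : (1 : ℝ) ≤ n := by exact_mod_cast hn1
  have hn0 : (0 : ℝ) < n := by linarith
  have e1 := fi_ev_real hE (((2 * T₀ + 1 : ℕ) : ℤ) * n) (ε * (n : ℝ) ^ ((1 : ℝ) / 3)) α
  have e2 := fi_ev_real (hE.comp (fi_sh_inj ((T₀ : ℤ) * n))) (((2 * T₀ + 1 : ℕ) : ℤ) * n)
    (ε * (n : ℝ) ^ ((1 : ℝ) / 3)) α
  rw [e1, ← e2] at key
  refine le_trans ?_ (ENNReal.ofReal_le_ofReal key)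
  rw [ofReal_measureReal]
  refine measure_mono ?_
  rintro ω ⟨a, b, hle, haH, ha, hb, hd⟩
  set w := wgt (cH α) E ω with hw
  set w' := wgt (cH α) (resamp E) ω with hw'
  have hww : ∀ z : ℤ × ℤ, z.1 ≠ z.2 → w z = w' z := by
    intro z hz
    rw [hw, hw']
    simp only [wgt, resamp, if_neg hz]
  have hεn : 0 < ε * (n : ℝ) ^ ((1 : ℝ) / 3) := mul_pos hε (Real.rpow_pos_of_pos hn0 _)
  have hpair : ∃ s t : ℤ, s < t ∧ a.1 - 1 ≤ s ∧ t ≤ b.2 ∧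
      ε * (n : ℝ) ^ ((1 : ℝ) / 3) < |X w s t - X w' s t| := by
    rcases le_total (L Hs w' a b) (L Hs w a b) with h1 | h1
    · rw [abs_of_nonneg (sub_nonneg.2 h1)] at hd
      rcases fi_diag w w' hww a b hle with h2 | ⟨s, t, h3, h4, h5, h6⟩
      · linarith
      · exact ⟨s, t, h3, h4, h5, lt_of_lt_of_le hd (h6.trans (le_abs_self _))⟩
    · rw [abs_sub_comm, abs_of_nonneg (sub_nonneg.2 h1)] at hd
      rcases fi_diag w' w (fun z hz => (hww z hz).symm) a b hle with h2 | ⟨s, t, h3, h4, h5, h6⟩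
      · linarith
      · refine ⟨s, t, h3, h4, h5, lt_of_lt_of_le hd (h6.trans ?_)⟩
        rw [abs_sub_comm]
        exact le_abs_self _
  obtain ⟨s, t, hst, hs, ht, hX⟩ := hpair
  refine ⟨s + (T₀ : ℤ) * n, t + (T₀ : ℤ) * n, by omega, by omega, ?_, ?_⟩
  · push_cast
    nlinarith
  · rw [fi_resamp_shift, fi_wgt_shift, fi_wgt_shift, fi_X_shift, fi_X_shift]
    rw [add_sub_cancel_right, add_sub_cancel_right]
    exact hX

end Pool.Agent.KS6_11.HsLpp
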