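import Pool.Graph.R_pool_sql_team_seeded_620a6dc7.H374.Fin

/-!
# Resampling the diagonal, uniformly over the pairs and over the parameter window

The two proofs are those of the library module `H374.All`, with the parameter `α` free in the
window `|α - 1/2| ≤ |κ| n ^ (-1/3)`.
-/

set_option autoImplicit false
open MeasureTheory ProbabilityTheory Filter Topology

namespace Pool.Agent.KS6_11.HsLpp

open Pool.Agent.H374

lemma al_one_unif (h2 : DiagMinus) (h3 : DiagPlus) (h4 : LowerTail) (h5 : DyadicStmt)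
    {Ω : Type} [MeasurableSpace Ω] {P : Measure Ω} {E E' : ℤ × ℤ → Ω → ℝ} (hE : Env P E)
    (hE' : Env P E') (hn : ∀ z ω, 0 ≤ E z ω) (hn' : ∀ z ω, 0 ≤ E' z ω)
    (hpair : ∀ κ η : ℝ, 0 < κ → 0 < η → ∃ N : ℕ, 1 ≤ N ∧ ∃ n0 : ℕ, ∀ s t : ℤ, (n0 : ℤ) ≤ t - s →
      s < t → (N : ℤ) ∣ t - s → ∀ α : ℝ, |α - 1 / 2| ≤ κ * ((t : ℝ) - s) ^ (-(1 : ℝ) / 3) →
      ∫ ω, |X (wgt (cH α) E ω) s t - X (wgt (cH α) E' ω) s t| ∂P
        ≤ η * ((t : ℝ) - s) ^ ((1 : ℝ) / 3))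
    (κ : ℝ) (T : ℕ) (hT : 1 ≤ T) (ε δ : ℝ) (hε : 0 < ε) (hδ : 0 < δ) :
    ∃ n1 : ℕ, ∀ n : ℕ, n1 ≤ n → ∀ α : ℝ, |α - 1 / 2| ≤ |κ| * (n : ℝ) ^ (-(1 : ℝ) / 3) →
      P.real {ω | ∃ s t : ℤ, 0 ≤ s ∧ s < t ∧ t ≤ T * n ∧
      ε * (n : ℝ) ^ ((1 : ℝ) / 3) <
      X (wgt (cH α) E' ω) s t - X (wgt (cH α) E ω) s t} ≤ δ := by
  have hprob := hE.prob
  obtain ⟨κ0, hκ0, B, hB, hcell⟩ := al_cells h2 h3 h4 h5
  set ε1 : ℝ := ε / 6 with hε1
  have hε1p : 0 < ε1 := by positivity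
  have hT' : (1 : ℝ) ≤ T := by exact_mod_cast hT
  obtain ⟨k, hk1, hkK, hkB⟩ := al_choose (c := 6 * T * B) (B := B / ε1) (δ := δ / 2)
    (K := |κ| / κ0) (by positivity) (by positivity) (by positivity)
  have hkB' := hkB _ rfl
  have hkr : (1 : ℝ) ≤ k := by exact_mod_cast hk1
  have hkκ : |κ| ≤ κ0 * k := by
    rw [div_le_iff₀ hκ0] at hkK
    linarith
  set M : ℕ := 2 * T * k ^ 3 with hM
  have hMr : (M : ℝ) = 2 * T * (k : ℝ) ^ 3 := by rw [hM]; push_cast; ring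
  set η : ℝ := δ * ε1 / (4 * T * ((M : ℝ) + 1) ^ 2) with hη
  have hηp : 0 < η := by positivity
  set κ' : ℝ := 2 * T * |κ| + 1 with hκ'
  have hκ'p : 0 < κ' := by positivity
  obtain ⟨N, hN, n0, hpr⟩ := hpair κ' η hκ'p hηp
  -- smallness of the perturbation
  have hsmall : ∀ᶠ n : ℕ in atTop, |κ| * (n : ℝ) ^ (-(1 : ℝ) / 3) < 1 / 2 := by
    have h1 : Tendsto (fun n : ℕ => |κ| * (n : ℝ) ^ (-((1 : ℝ) / 3))) atTop (𝓝 0) := by
      have := ((tendsto_rpow_neg_atTop (y := (1 : ℝ) / 3) (by norm_num)).comp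
        tendsto_natCast_atTop_atTop).const_mul |κ|
      rw [mul_zero] at this
      exact this
    have h2 := h1.eventually (gt_mem_nhds (by norm_num : (0 : ℝ) < 1 / 2))
    refine h2.mono fun n hn => ?_
    rw [neg_div]; exact hn
  rw [eventually_atTop] at hsmall
  obtain ⟨n2, hn2⟩ := hsmall
  refine ⟨max n2 (2 * k ^ 3 * N + 2 * k ^ 3 * n0 + 1), fun n hn1 α habs => ?_⟩
  have hnn2 : n2 ≤ n := (le_max_left _ _).trans hn1
  have hnk : 2 * k ^ 3 * N + 2 * k ^ 3 * n0 + 1 ≤ n := (le_max_right _ _).trans hn1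
  have hnpos : 1 ≤ n := by omega
  have hnr : (1 : ℝ) ≤ n := by exact_mod_cast hnpos
  -- the mesh
  set W : ℕ := 2 * k ^ 3 * N with hW
  have hk3 : 1 ≤ k ^ 3 := Nat.one_le_pow _ _ hk1
  have hWpos : 0 < W := by positivity
  set g : ℕ := N * (n / W + 1) with hg
  have hg1 : 1 ≤ g := by
    rw [hg]; nlinarith [Nat.zero_le (n / W)]
  have hgW : 2 * k ^ 3 * g = W * (n / W) + W := by rw [hg, hW]; ring
  have hdm := Nat.div_add_mod n W
  have hml := Nat.mod_lt n hWpos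
  have hga : n ≤ 2 * k ^ 3 * g := by omega
  have hgb : 2 * k ^ 3 * g ≤ 2 * n := by omega
  have hgn0 : n0 ≤ g := by
    by_contra hcon
    push Not at hcon
    have : 2 * k ^ 3 * g < 2 * k ^ 3 * n0 := by
      apply Nat.mul_lt_mul_of_pos_left hcon (by positivity)
    omega
  have hgr : (1 : ℝ) ≤ g := by exact_mod_cast hg1
  have hgbr : (k : ℝ) ^ 3 * g ≤ n := by
    have h1 : k ^ 3 * g ≤ n := by nlinarith
    exact_mod_cast h1
  have hαpos : 0 < α := by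
    have h1 := hn2 n hnn2
    have := (abs_lt.1 (habs.trans_lt h1)).1
    linarith
  -- powers
  have hn13 : (0 : ℝ) < (n : ℝ) ^ ((1 : ℝ) / 3) := by positivity
  have hk13 : ((k : ℝ) ^ 3) ^ ((1 : ℝ) / 3) = k := by
    rw [← Real.rpow_natCast, ← Real.rpow_mul (by positivity)]
    norm_num
  have hg13 : k * (g : ℝ) ^ ((1 : ℝ) / 3) ≤ (n : ℝ) ^ ((1 : ℝ) / 3) := by
    have h1 : ((k : ℝ) ^ 3 * g) ^ ((1 : ℝ) / 3) ≤ (n : ℝ) ^ ((1 : ℝ) / 3) :=
      Real.rpow_le_rpow (by positivity) hgbr (by norm_num)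
    rwa [Real.mul_rpow (by positivity) (by positivity), hk13] at h1
  have hkm13 : ((k : ℝ) ^ 3) ^ (-(1 : ℝ) / 3) = (k : ℝ)⁻¹ := by
    rw [neg_div, Real.rpow_neg (by positivity), hk13]
  have hwin : |α - 1 / 2| ≤ κ0 * (g : ℝ) ^ (-(1 : ℝ) / 3) := by
    refine habs.trans ?_
    have h1 : (n : ℝ) ^ (-(1 : ℝ) / 3) ≤ ((k : ℝ) ^ 3 * g) ^ (-(1 : ℝ) / 3) :=
      Real.rpow_le_rpow_of_nonpos (by positivity) hgbr (by norm_num)
    rw [Real.mul_rpow (by positivity) (by positivity), hkm13] at h1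
    have h2 : |κ| * (n : ℝ) ^ (-(1 : ℝ) / 3) ≤ (κ0 * k) * ((k : ℝ)⁻¹ * (g : ℝ) ^ (-(1 : ℝ) / 3)) :=
      mul_le_mul hkκ h1 (by positivity) (by positivity)
    refine h2.trans (le_of_eq ?_)
    field_simp
  have hMg : (M : ℝ) * g ≤ 2 * T * n := by
    rw [hMr]
    nlinarith [mul_le_mul_of_nonneg_left hgbr (by positivity : (0 : ℝ) ≤ 2 * T)]
  have h2T : (1 : ℝ) ≤ 2 * T := by linarith
  -- the pairs
  set β : ℝ := ε1 * (n : ℝ) ^ ((1 : ℝ) / 3) with hβ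
  have hβp : 0 < β := by positivity
  set pr : ℕ × ℕ → Set Ω := fun p => {ω | p.1 < p.2 ∧ p.2 ≤ M ∧
    β ≤ |X (wgt (cH α) E ω) ((g : ℤ) * p.1) ((g : ℤ) * p.2)
      - X (wgt (cH α) E' ω) ((g : ℤ) * p.1) ((g : ℤ) * p.2)|} with hprd
  have hprp : ∀ p : ℕ × ℕ, P.real (pr p) ≤ η * (2 * T) / ε1 := by
    intro p
    by_cases hp : p.1 < p.2 ∧ p.2 ≤ M
    · obtain ⟨hp1, hp2⟩ := hp
      have hsub : pr p ⊆ {ω | β ≤ |X (wgt (cH α) E ω) ((g : ℤ) * p.1) ((g : ℤ) * p.2)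
          - X (wgt (cH α) E' ω) ((g : ℤ) * p.1) ((g : ℤ) * p.2)|} := fun ω hω => hω.2.2
      refine (measureReal_mono hsub).trans ?_
      set d : ℝ := (((g : ℤ) * p.2 : ℤ) : ℝ) - (((g : ℤ) * p.1 : ℤ) : ℝ) with hd
      have hd' : d = g * ((p.2 : ℝ) - p.1) := by rw [hd]; push_cast; ring
      have hp12 : (1 : ℝ) ≤ (p.2 : ℝ) - p.1 := by
        have : (p.1 : ℝ) + 1 ≤ p.2 := by exact_mod_cast hp1
        linarith
      have hd1 : 1 ≤ d := by rw [hd']; nlinarith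
      have hd2 : d ≤ 2 * T * n := by
        have h6 : (p.2 : ℝ) ≤ M := by exact_mod_cast hp2
        have h7 : (0 : ℝ) ≤ p.1 := Nat.cast_nonneg _
        rw [hd']
        nlinarith
      have hzz : ((g : ℤ) * p.2 - (g : ℤ) * p.1 : ℤ) = g * ((p.2 : ℤ) - p.1) := by ring
      have hzz1 : (1 : ℤ) ≤ (p.2 : ℤ) - p.1 := by omega
      have hgz : (1 : ℤ) ≤ (g : ℤ) := by exact_mod_cast hg1
      have hI := hpr ((g : ℤ) * p.1) ((g : ℤ) * p.2) (by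
          rw [hzz]
          have : (n0 : ℤ) ≤ g := by exact_mod_cast hgn0
          nlinarith) (by nlinarith) (by
          rw [hzz, hg]
          exact ⟨((n / W + 1 : ℕ) : ℤ) * ((p.2 : ℤ) - p.1), by push_cast; ring⟩) α (by
          rw [← hd]
          refine habs.trans ?_
          have h6 : (2 * T * (n : ℝ)) ^ (-(1 : ℝ) / 3) ≤ d ^ (-(1 : ℝ) / 3) :=
            Real.rpow_le_rpow_of_nonpos (by linarith) hd2 (by norm_num)
          rw [Real.mul_rpow (by positivity) (by positivity)] at h6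
          have h7 : (2 * (T : ℝ)) ^ (-1 : ℝ) ≤ (2 * (T : ℝ)) ^ (-(1 : ℝ) / 3) :=
            Real.rpow_le_rpow_of_exponent_le h2T (by norm_num)
          rw [Real.rpow_neg_one] at h7
          have h8 : (2 * (T : ℝ))⁻¹ * (n : ℝ) ^ (-(1 : ℝ) / 3) ≤ d ^ (-(1 : ℝ) / 3) :=
            (mul_le_mul_of_nonneg_right h7 (by positivity)).trans h6
          have h9 : 2 * T * |κ| * ((2 * (T : ℝ))⁻¹ * (n : ℝ) ^ (-(1 : ℝ) / 3))
              = |κ| * (n : ℝ) ^ (-(1 : ℝ) / 3) := by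
            field_simp
          have h10 : 2 * T * |κ| * ((2 * (T : ℝ))⁻¹ * (n : ℝ) ^ (-(1 : ℝ) / 3))
              ≤ 2 * T * |κ| * d ^ (-(1 : ℝ) / 3) := mul_le_mul_of_nonneg_left h8 (by positivity)
          have h11 : (0 : ℝ) ≤ d ^ (-(1 : ℝ) / 3) := by positivity
          rw [hκ']
          nlinarith)
      rw [← hd] at hI
      have hint : Integrable (fun ω => X (wgt (cH α) E ω) ((g : ℤ) * p.1) ((g : ℤ) * p.2)
          - X (wgt (cH α) E' ω) ((g : ℤ) * p.1) ((g : ℤ) * p.2)) P :=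
        (al_L_int hE _ _ _ _).sub (al_L_int hE' _ _ _ _)
      refine (al_markov hint hβp hI).trans ?_
      rw [hβ, div_le_div_iff₀ (by positivity) hε1p]
      have h6 : d ^ ((1 : ℝ) / 3) ≤ (2 * T * (n : ℝ)) ^ ((1 : ℝ) / 3) :=
        Real.rpow_le_rpow (by linarith) hd2 (by norm_num)
      rw [Real.mul_rpow (by positivity) (by positivity)] at h6
      have h7 : (2 * (T : ℝ)) ^ ((1 : ℝ) / 3) ≤ (2 * (T : ℝ)) ^ (1 : ℝ) :=
        Real.rpow_le_rpow_of_exponent_le h2T (by norm_num)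
      rw [Real.rpow_one] at h7
      have h8 : d ^ ((1 : ℝ) / 3) ≤ 2 * T * (n : ℝ) ^ ((1 : ℝ) / 3) :=
        h6.trans (mul_le_mul_of_nonneg_right h7 (by positivity))
      have h9 := mul_le_mul_of_nonneg_left h8 (by positivity : (0 : ℝ) ≤ η * ε1)
      nlinarith
    · have : pr p = ∅ := by
        ext ω
        simp only [hprd, Set.mem_ofPred_eq, Set.mem_empty_iff_false, iff_false]
        rintro ⟨h6, h7, _⟩
        exact hp ⟨h6, h7⟩
      rw [this, measureReal_empty]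
      positivity
  -- the cells
  set τ : ℝ := ε1 * k with hτ
  have hτg : τ * (g : ℝ) ^ ((1 : ℝ) / 3) ≤ β := by
    rw [hτ, hβ, mul_assoc]
    exact mul_le_mul_of_nonneg_left hg13 hε1p.le
  set ce : ℕ → Set Ω := fun j => al_cell (al_Ym E α ((g : ℤ) * j)) g τ ∪
    (al_cell (al_Yp E α ((g : ℤ) * M + 1) ((g : ℤ) * j)) g τ ∪
      al_cell (al_Yx E' α ((g : ℤ) * j)) g τ) with hce
  have hcep : ∀ j ∈ Finset.range M, P.real (ce j) ≤ 3 * (B * Real.exp (-τ / B)) := by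
    intro j hj
    rw [Finset.mem_range] at hj
    have hjM : (g : ℤ) * j + g ≤ (g : ℤ) * M := by
      have e : (g : ℤ) * j + g = (g : ℤ) * ((j : ℤ) + 1) := by ring
      rw [e]
      exact mul_le_mul_of_nonneg_left (by omega) (by positivity)
    have c1 := hcell Ω P E hE hn g ((g : ℤ) * j) ((g : ℤ) * M + 1) (by positivity) (by omega) α
      hαpos hwin τ (by positivity)
    have c2 := hcell Ω P E' hE' hn' g ((g : ℤ) * j) ((g : ℤ) * M + 1) (by positivity) (by omega) α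
      hαpos hwin τ (by positivity)
    have u1 := measureReal_union_le (μ := P) (al_cell (al_Ym E α ((g : ℤ) * j)) g τ)
      (al_cell (al_Yp E α ((g : ℤ) * M + 1) ((g : ℤ) * j)) g τ ∪
        al_cell (al_Yx E' α ((g : ℤ) * j)) g τ)
    have u2 := measureReal_union_le (μ := P)
      (al_cell (al_Yp E α ((g : ℤ) * M + 1) ((g : ℤ) * j)) g τ)
      (al_cell (al_Yx E' α ((g : ℤ) * j)) g τ)
    linarith [c1.1, c1.2.1, c2.2.2]
  -- inclusion
  have hincl : {ω | ∃ s t : ℤ, 0 ≤ s ∧ s < t ∧ t ≤ T * n ∧ ε * (n : ℝ) ^ ((1 : ℝ) / 3) <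
      X (wgt (cH α) E' ω) s t - X (wgt (cH α) E ω) s t} ⊆
      (⋃ j ∈ Finset.range M, ce j) ∪
        (⋃ p ∈ Finset.range (M + 1) ×ˢ Finset.range (M + 1), pr p) := by
    rintro ω ⟨s, t, hs, hst, htn, hgt⟩
    by_contra hcon
    rw [Set.mem_union, not_or] at hcon
    obtain ⟨g1, g2⟩ := hcon
    simp only [Set.mem_iUnion, not_exists] at g1 g2
    have hcc : ∀ j, j < M → ω ∉ ce j := fun j hj h => g1 j (Finset.mem_range.2 hj) h
    have htM : t ≤ (g : ℤ) * M := by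
      have h6 : T * n ≤ g * M := by
        rw [hM]
        nlinarith
      have h7 : (T : ℤ) * n ≤ (g : ℤ) * M := by exact_mod_cast h6
      omega
    have := al_incl (E := E) (E' := E') (ω := ω) (fun z => hn' z ω) (g := g) (M := M) hg1
      (α := α) (τ := τ) (β := β) hαpos hβp.le hτg
      (fun j hj h => hcc j hj (Or.inl h)) (fun j hj h => hcc j hj (Or.inr (Or.inl h)))
      (fun j hj h => hcc j hj (Or.inr (Or.inr h)))
      (fun i j hij hj => by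
        by_contra h6
        push Not at h6
        exact g2 (i, j) (Finset.mem_product.2 ⟨Finset.mem_range.2 (by omega),
          Finset.mem_range.2 (by omega)⟩) ⟨hij, hj, h6.le⟩)
      hs hst htM
    have h8 : 5 * β < ε * (n : ℝ) ^ ((1 : ℝ) / 3) := by
      rw [hβ, hε1]
      nlinarith
    linarith
  refine (measureReal_mono hincl).trans ?_
  refine (measureReal_union_le _ _).trans ?_
  have s1 : P.real (⋃ j ∈ Finset.range M, ce j) ≤ δ / 2 := by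
    refine (measureReal_biUnion_finset_le _ _).trans ?_
    refine (Finset.sum_le_sum hcep).trans ?_
    rw [Finset.sum_const, Finset.card_range, nsmul_eq_mul, hMr]
    refine le_trans (le_of_eq ?_) hkB'
    have e : -τ / B = -(k : ℝ) / (B / ε1) := by
      rw [hτ]; field_simp
    rw [e]; ring
  have s2 : P.real (⋃ p ∈ Finset.range (M + 1) ×ˢ Finset.range (M + 1), pr p) ≤ δ / 2 := by
    refine (measureReal_biUnion_finset_le _ _).trans ?_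
    refine (Finset.sum_le_sum (fun p _ => hprp p)).trans ?_
    rw [Finset.sum_const, Finset.card_product, Finset.card_range, nsmul_eq_mul]
    refine le_of_eq ?_
    rw [hη]
    push_cast
    field_simp
    ring
  linarith


theorem all_unif (h1 : PairResample) (h2 : DiagMinus) (h3 : DiagPlus) (h4 : LowerTail)
    (h5 : DyadicStmt) (κ : ℝ) (T : ℕ) (hT : 1 ≤ T) (ε : ℝ) (hε : 0 < ε) (δ : ℝ) (hδ : 0 < δ)
    (Ω : Type) [MeasurableSpace Ω] (P : Measure Ω) (E : ℤ × ℤ → Ω → ℝ) (hE : Env P E) :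
    ∃ n1 : ℕ, ∀ n : ℕ, n1 ≤ n → ∀ α : ℝ, |α - 1 / 2| ≤ |κ| * (n : ℝ) ^ (-(1 : ℝ) / 3) →
      P.real {ω | ∃ s t : ℤ, 0 ≤ s ∧ s < t ∧ t ≤ T * n ∧ ε * (n : ℝ) ^ ((1 : ℝ) / 3) <
        |X (wgt (cH α) E ω) s t - X (wgt (cH α) (resamp E) ω) s t|} ≤ δ := by
  have hprob := hE.prob
  set E1 : ℤ × ℤ → Ω → ℝ := fun z ω => |E z ω| with hE1d
  have hE1 : Env P E1 := al_abs hE
  set E2 : ℤ × ℤ → Ω → ℝ := fun z => E1 (al_sw z) with hE2d
  have hE2 : Env P E2 := hE1.comp al_sw_inj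
  have n1 : ∀ z ω, 0 ≤ E1 z ω := fun z ω => abs_nonneg _
  have n2 : ∀ z ω, 0 ≤ E2 z ω := fun z ω => abs_nonneg _
  have pair12 : ∀ κ η : ℝ, 0 < κ → 0 < η → ∃ N : ℕ, 1 ≤ N ∧ ∃ n0 : ℕ, ∀ s t : ℤ,
      (n0 : ℤ) ≤ t - s → s < t → (N : ℤ) ∣ t - s → ∀ α : ℝ,
      |α - 1 / 2| ≤ κ * ((t : ℝ) - s) ^ (-(1 : ℝ) / 3) →
      ∫ ω, |X (wgt (cH α) E1 ω) s t - X (wgt (cH α) E2 ω) s t| ∂P
        ≤ η * ((t : ℝ) - s) ^ ((1 : ℝ) / 3) := by
    intro κ' η hκ' hη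
    obtain ⟨N, hN, n0, H⟩ := h1 κ' η hκ' hη
    refine ⟨N, hN, n0, fun s t a1 a2 a3 α a4 => ?_⟩
    have := H Ω P E1 hE1 s t a1 a2 a3 α a4
    simp only [al_X_resamp] at this
    exact this
  have pair21 : ∀ κ η : ℝ, 0 < κ → 0 < η → ∃ N : ℕ, 1 ≤ N ∧ ∃ n0 : ℕ, ∀ s t : ℤ,
      (n0 : ℤ) ≤ t - s → s < t → (N : ℤ) ∣ t - s → ∀ α : ℝ,
      |α - 1 / 2| ≤ κ * ((t : ℝ) - s) ^ (-(1 : ℝ) / 3) →
      ∫ ω, |X (wgt (cH α) E2 ω) s t - X (wgt (cH α) E1 ω) s t| ∂P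
        ≤ η * ((t : ℝ) - s) ^ ((1 : ℝ) / 3) := by
    intro κ' η hκ' hη
    obtain ⟨N, hN, n0, H⟩ := pair12 κ' η hκ' hη
    refine ⟨N, hN, n0, fun s t a1 a2 a3 α a4 => ?_⟩
    have := H s t a1 a2 a3 α a4
    simp only [abs_sub_comm (X (wgt (cH α) E2 _) s t)]
    exact this
  obtain ⟨m1, H1⟩ := al_one_unif h2 h3 h4 h5 hE1 hE2 n1 n2 pair12 κ T hT ε (δ / 3) hε (by positivity)
  obtain ⟨m2, H2⟩ := al_one_unif h2 h3 h4 h5 hE2 hE1 n2 n1 pair21 κ T hT ε (δ / 3) hε (by positivity)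
  refine ⟨max m1 m2, fun n hn α hα => ?_⟩
  have b1 := H1 n ((le_max_left _ _).trans hn) α hα
  have b2 := H2 n ((le_max_right _ _).trans hn) α hα
  set S1 : Set Ω := {ω | ∃ s t : ℤ, 0 ≤ s ∧ s < t ∧ t ≤ T * n ∧ ε * (n : ℝ) ^ ((1 : ℝ) / 3) <
      X (wgt (cH α) E2 ω) s t - X (wgt (cH α) E1 ω) s t} with hS1
  set S2 : Set Ω := {ω | ∃ s t : ℤ, 0 ≤ s ∧ s < t ∧ t ≤ T * n ∧ ε * (n : ℝ) ^ ((1 : ℝ) / 3) <
      X (wgt (cH α) E1 ω) s t - X (wgt (cH α) E2 ω) s t} with hS2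
  have hae : {ω | ∃ s t : ℤ, 0 ≤ s ∧ s < t ∧ t ≤ T * n ∧ ε * (n : ℝ) ^ ((1 : ℝ) / 3) <
      |X (wgt (cH α) E ω) s t - X (wgt (cH α) (resamp E) ω) s t|} ≤ᵐ[P] (S1 ∪ S2 : Set Ω) := by
    filter_upwards [hE.nonneg] with ω hω hmem
    obtain ⟨s, t, a1, a2, a3, a4⟩ := hmem
    have e1 : X (wgt (cH α) E ω) s t = X (wgt (cH α) E1 ω) s t := by
      unfold X
      refine L_congr fun z _ _ => ?_
      unfold wgt
      rw [hE1d]
      simp only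
      rw [abs_of_nonneg (hω z)]
    have e2 : X (wgt (cH α) (resamp E) ω) s t = X (wgt (cH α) E2 ω) s t := by
      rw [al_X_resamp]
      unfold X
      refine L_congr fun z _ _ => ?_
      unfold wgt
      rw [hE2d, hE1d]
      simp only
      rw [abs_of_nonneg (hω _)]
    rw [e1, e2, lt_abs] at a4
    rcases a4 with a4 | a4
    · exact Or.inr ⟨s, t, a1, a2, a3, a4⟩
    · exact Or.inl ⟨s, t, a1, a2, a3, by linarith⟩
  have h6 : P.real {ω | ∃ s t : ℤ, 0 ≤ s ∧ s < t ∧ t ≤ T * n ∧ ε * (n : ℝ) ^ ((1 : ℝ) / 3) <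
      |X (wgt (cH α) E ω) s t - X (wgt (cH α) (resamp E) ω) s t|} ≤ P.real (S1 ∪ S2) :=
    ENNReal.toReal_mono (measure_ne_top _ _) (measure_mono_ae hae)
  have h7 := measureReal_union_le (μ := P) S1 S2
  linarith


/-- The uniform statement, without hypotheses. -/
theorem all_pairs (κ : ℝ) (T : ℕ) (hT : 1 ≤ T) (ε : ℝ) (hε : 0 < ε) (δ : ℝ) (hδ : 0 < δ)
    (Ω : Type) [MeasurableSpace Ω] (P : Measure Ω) (E : ℤ × ℤ → Ω → ℝ) (hE : Env P E) :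
    ∃ n1 : ℕ, ∀ n : ℕ, n1 ≤ n → ∀ α : ℝ, |α - 1 / 2| ≤ |κ| * (n : ℝ) ^ (-(1 : ℝ) / 3) →
      P.real {ω | ∃ s t : ℤ, 0 ≤ s ∧ s < t ∧ t ≤ T * n ∧ ε * (n : ℝ) ^ ((1 : ℝ) / 3) <
        |X (wgt (cH α) E ω) s t - X (wgt (cH α) (resamp E) ω) s t|} ≤ δ :=
  all_unif (t_PairResample (t_PhiResample
    (t_JBound a_JAbstract (t_JLaw t_Burke) t_JMom (t_JUpsTail a_DiagMinus a_DiagPlus a_LowerTail)
      (t_JTTail a_FarPairs)) a_Core)
    a_PhiClose) a_DiagMinus a_DiagPlus a_LowerTail t_Dyadic κ T hT ε hε δ hδ Ω P E hE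

end Pool.Agent.KS6_11.HsLpp
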